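import Mathlib

set_option autoImplicit false
set_option maxRecDepth 100000

/-!
# A connected cubic graph with `ir < γ < i < β₀ < Γ < IR`

The graph has 36 vertices and `ir ≤ 9`, `γ = 10`, `i = 11`, `β₀ = 14`, `Γ = 15`, `IR ≥ 16`. It
consists of three pieces of 12 vertices, which are joined in a ring by single edges. The bounds
`γ ≥ 10`, `i ≥ 11`, `β₀ ≤ 14` and `Γ ≤ 15` are shown by the transfer matrix method: all `2 ^ 12`
subsets of each piece are listed by the kernel (functions `chkg`, `chki`, `chkb`, `chkG`), and the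
largest or smallest sizes for the given behaviour at the end points of the joining edges are
combined.
-/

namespace Pool.Agent.Results.MP_93f3b8_co.StrictChain

/-! ## The six parameters -/

section Defs

variable {V : Type}

/-- `w` is `v` or a neighbour of `v`, that is `w ∈ N[v]`. -/
def Near (G : SimpleGraph V) (v w : V) : Prop := w = v ∨ G.Adj v w

/-- Every vertex is in `S` or has a neighbour in `S`. -/
def Dominating (G : SimpleGraph V) (S : Finset V) : Prop := ∀ w, ∃ v ∈ S, Near G v w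

/-- No two vertices of `S` are adjacent. -/
def Independent (G : SimpleGraph V) (S : Finset V) : Prop := ∀ v ∈ S, ∀ w ∈ S, ¬ G.Adj v w

/-- Every `v ∈ S` has a private neighbour, a vertex of `N[v]` in no `N[u]` with `u ∈ S`, `u ≠ v`. -/
def Irredundant (G : SimpleGraph V) (S : Finset V) : Prop :=
  ∀ v ∈ S, ∃ w, Near G v w ∧ ∀ u ∈ S, u ≠ v → ¬ Near G u w

/-- the minimum size of a dominating set -/
noncomputable def gamma (G : SimpleGraph V) : ℕ :=
  sInf {k | ∃ S : Finset V, Dominating G S ∧ S.card = k}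

/-- the maximum size of a minimal dominating set -/
noncomputable def Gamma (G : SimpleGraph V) : ℕ :=
  sSup {k | ∃ S : Finset V, Minimal (Dominating G) S ∧ S.card = k}

/-- the maximum size of an independent set -/
noncomputable def beta0 (G : SimpleGraph V) : ℕ :=
  sSup {k | ∃ S : Finset V, Independent G S ∧ S.card = k}

/-- the minimum size of a maximal independent set -/
noncomputable def idom (G : SimpleGraph V) : ℕ :=
  sInf {k | ∃ S : Finset V, Maximal (Independent G) S ∧ S.card = k}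

/-- the minimum size of a maximal irredundant set -/
noncomputable def ir (G : SimpleGraph V) : ℕ :=
  sInf {k | ∃ S : Finset V, Maximal (Irredundant G) S ∧ S.card = k}

/-- the maximum size of an irredundant set -/
noncomputable def IR (G : SimpleGraph V) : ℕ :=
  sSup {k | ∃ S : Finset V, Irredundant G S ∧ S.card = k}

end Defs

/-! ## The graph -/

/-- The closed neighbourhood of vertex `j` inside piece `i`, as a bit mask. -/
def C (i j : ℕ) : ℕ :=
  ([[7, 15, 23, 42, 212, 808, 1232, 2256, 3360, 3616, 1856, 2944],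
    [7, 23, 39, 200, 786, 3108, 456, 1224, 848, 2832, 3232, 3616],
    [15, 51, 21, 169, 278, 554, 1600, 3208, 3344, 2656, 1472, 2944]].getD i []).getD j 0

/-- the vertex of piece `i` joined to piece `i - 1` -/
def U (i : Fin 3) : Fin 12 := ![3, 0, 2] i

/-- the vertex of piece `i` joined to piece `i + 1` -/
def W (i : Fin 3) : Fin 12 := ![0, 3, 6] i

/-- adjacency -/
def adj (p q : Fin 3 × Fin 12) : Bool :=
  (p.1 == q.1 && p.2 != q.2 && (C p.1 p.2).testBit q.2) ||
    (p.2 == W p.1 && q == (p.1 + 1, U (p.1 + 1))) || (q.2 == W q.1 && p == (q.1 + 1, U (q.1 + 1)))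

/-- The cubic graph. -/
def Gr : SimpleGraph (Fin 3 × Fin 12) where
  Adj p q := adj p q = true
  symm := ⟨by decide +kernel⟩
  loopless := ⟨by decide +kernel⟩

instance : DecidableRel Gr.Adj := fun p q => inferInstanceAs (Decidable (adj p q = true))

/-! ## Kernel computations -/

/-- `f` holds below `n` -/
def allN (n : ℕ) (f : ℕ → Bool) : Bool := Nat.rec true (fun k ih => and (f k) ih) n

/-- `f` holds on a list -/
def allL {α : Type} (l : List α) (f : α → Bool) : Bool :=
  List.rec true (fun a _ ih => and (f a) ih) l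

/-- `f` holds somewhere on a list -/
def anyL (l : List ℕ) (f : ℕ → Bool) : Bool := List.rec false (fun a _ ih => or (f a) ih) l

/-- the masks meet -/
def hit (m c : ℕ) : Bool := not (Nat.beq (Nat.land m c) 0)

/-- number of elements of a mask below `4096` -/
def pop (m : ℕ) : ℕ :=
  Nat.add (Nat.mod (Nat.shiftRight 5266721624626081916652898579601397356032429460333936579656 (Nat.mul 3 (Nat.mod m 64))) 8)
    (Nat.mod (Nat.shiftRight 5266721624626081916652898579601397356032429460333936579656 (Nat.mul 3 (Nat.div m 64))) 8)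

/-- the state of a vertex with bit `b` and closed neighbourhood `c`: in the set (`0`), not in the set
and without neighbour in the set inside the piece (`1`), or with such a neighbour (`2`) -/
def st (m b c : ℕ) : ℕ := cond (hit m b) 0 (cond (hit m c) 2 1)

/-- table lookup -/
def tb (t a b : ℕ) : ℕ := Nat.mod (Nat.shiftRight t (Nat.mul 4 (Nat.add (Nat.mul 3 a) b))) 16

/-- table lookup, four states -/
def tb4 (t x a b y : ℕ) : ℕ :=
  Nat.mod (Nat.shiftRight t (Nat.mul 4 (Nat.add (Nat.mul 3 (Nat.add (Nat.mul 3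
    (Nat.add (Nat.mul 3 x) a)) b)) y))) 16

/-- closed neighbourhoods of the vertices of piece `i` other than the two end points -/
def I (i : ℕ) : List ℕ :=
  [[15, 23, 212, 808, 1232, 2256, 3360, 3616, 1856, 2944],
    [23, 39, 786, 3108, 456, 1224, 848, 2832, 3232, 3616],
    [15, 51, 169, 278, 554, 3208, 3344, 2656, 1472, 2944]].getD i []

/-- edges inside piece `i` -/
def Ed (i : ℕ) : List ℕ :=
  [[3, 5, 6, 10, 20, 40, 80, 144, 288, 544, 192, 1088, 2176, 1280, 2304, 1536, 2560],
    [3, 5, 6, 18, 36, 72, 136, 272, 528, 1056, 2080, 192, 320, 1152, 768, 2560, 3072],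
    [3, 5, 9, 18, 34, 20, 40, 136, 272, 544, 576, 1088, 1152, 2176, 1280, 2304, 2560]].getD i []

/-- bits and closed neighbourhoods of the end points -/
def bu (i : ℕ) : ℕ := [8, 1, 4].getD i 0
@[inherit_doc bu] def cu (i : ℕ) : ℕ := [42, 7, 21].getD i 0
@[inherit_doc bu] def bw (i : ℕ) : ℕ := [1, 8, 64].getD i 0
@[inherit_doc bu] def cw (i : ℕ) : ℕ := [7, 200, 1600].getD i 0

/-- tables -/
def Tg (i : ℕ) : ℕ := [21278704708, 13760738356, 18325128260].getD i 0
@[inherit_doc Tg] def Ti (i : ℕ) : ℕ := [21278704708, 13761459252, 18325914692].getD i 0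
@[inherit_doc Tg] def Tb (i : ℕ) : ℕ := [22636873029, 18055574580, 22636873029].getD i 0
@[inherit_doc Tg] def TG (i : ℕ) : ℕ := [11389150312061141729601103922274098251384216181395988108322511914216070064977393601100778004895060, 9112988575741196913567903851338501981706072522454072590225011767780738542604872861406716096623684, 13661417091867863006731538777895377334459554658656282313153788247813925651792917286259948405479014].getD i 0

/-- dominating sets -/
def chkg (I : List ℕ) (bu cu bw cw t : ℕ) : Bool :=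
  allN 4096 fun m => or (not (allL I fun c => hit m c))
    (Nat.ble (tb t (st m bu cu) (st m bw cw)) (pop m))

/-- the mask contains no edge -/
def indep (E : List ℕ) (m : ℕ) : Bool := allL E fun e => not (Nat.beq (Nat.land m e) e)

/-- independent dominating sets -/
def chki (I E : List ℕ) (bu cu bw cw t : ℕ) : Bool :=
  allN 4096 fun m => or (not (allL I fun c => hit m c)) (or (not (indep E m))
    (Nat.ble (tb t (st m bu cu) (st m bw cw)) (pop m)))

/-- independent sets -/
def chkb (E : List ℕ) (bu cu bw cw t : ℕ) : Bool :=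
  allN 4096 fun m => or (not (indep E m)) (Nat.ble (pop m) (tb t (st m bu cu) (st m bw cw)))

/-- Data of a vertex `j`: its bit, the closed neighbourhoods of the vertices of `N[j]` in the piece
other than the end points, whether the end points belong to `N[j]`, whether they are `j`. -/
structure Row where
  b : ℕ
  l : List ℕ
  hu : Bool
  hw : Bool
  ku : Bool
  kw : Bool
  deriving DecidableEq

/-- the rows of piece `i` -/
def rows (i : ℕ) : List Row :=
  [[⟨1, [15, 23], false, true, false, true⟩,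
    ⟨2, [15, 23], true, true, false, false⟩,
    ⟨4, [15, 23, 212], false, true, false, false⟩,
    ⟨8, [15, 808], true, false, true, false⟩,
    ⟨16, [23, 212, 1232, 2256], false, false, false, false⟩,
    ⟨32, [808, 3360, 3616], true, false, false, false⟩,
    ⟨64, [212, 1232, 2256, 1856], false, false, false, false⟩,
    ⟨128, [212, 1232, 2256, 2944], false, false, false, false⟩,
    ⟨256, [808, 3360, 1856, 2944], false, false, false, false⟩,
    ⟨512, [808, 3616, 1856, 2944], false, false, false, false⟩,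
    ⟨1024, [1232, 3360, 3616, 1856], false, false, false, false⟩,
    ⟨2048, [2256, 3360, 3616, 2944], false, false, false, false⟩],
   [⟨1, [23, 39], true, false, true, false⟩,
    ⟨2, [23, 39, 786], true, false, false, false⟩,
    ⟨4, [23, 39, 3108], true, false, false, false⟩,
    ⟨8, [456, 1224], false, true, false, true⟩,
    ⟨16, [23, 786, 848, 2832], false, false, false, false⟩,
    ⟨32, [39, 3108, 3232, 3616], false, false, false, false⟩,
    ⟨64, [456, 1224, 848], false, true, false, false⟩,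
    ⟨128, [456, 1224, 3232], false, true, false, false⟩,
    ⟨256, [786, 456, 848, 2832], false, false, false, false⟩,
    ⟨512, [786, 848, 2832, 3616], false, false, false, false⟩,
    ⟨1024, [3108, 1224, 3232, 3616], false, false, false, false⟩,
    ⟨2048, [3108, 2832, 3232, 3616], false, false, false, false⟩],
   [⟨1, [15, 51, 169], true, false, false, false⟩,
    ⟨2, [15, 51, 278, 554], false, false, false, false⟩,
    ⟨4, [15, 278], true, false, true, false⟩,
    ⟨8, [15, 169, 554, 3208], false, false, false, false⟩,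
    ⟨16, [51, 278, 3344], true, false, false, false⟩,
    ⟨32, [51, 169, 554, 2656], false, false, false, false⟩,
    ⟨64, [2656, 1472], false, true, false, true⟩,
    ⟨128, [169, 3208, 1472, 2944], false, false, false, false⟩,
    ⟨256, [278, 3344, 1472, 2944], false, false, false, false⟩,
    ⟨512, [554, 2656, 2944], false, true, false, false⟩,
    ⟨1024, [3208, 3344, 1472], false, true, false, false⟩,
    ⟨2048, [3208, 3344, 2656, 2944], false, false, false, false⟩]].getD i []

/-- if the vertex is in the set then it has a private neighbour -/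
def rowOK (cu cw m x y : ℕ) (r : Row) : Bool :=
  or (not (hit m r.b)) (or (anyL r.l fun c => Nat.beq (Nat.land m c) r.b)
    (or (and r.hu (and (Nat.beq (Nat.land m cu) r.b) (not (Nat.beq x 0))))
      (or (and r.hw (and (Nat.beq (Nat.land m cw) r.b) (not (Nat.beq y 0))))
        (or (and r.ku (Nat.beq x 1)) (and r.kw (Nat.beq y 1))))))

/-- minimal dominating sets -/
def chkG (I : List ℕ) (R : List Row) (bu cu bw cw t : ℕ) : Bool :=
  allN 4096 fun m => or (not (allL I fun c => hit m c)) (or (not (allL R (rowOK cu cw m 1 1)))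
    (allN 3 fun x => allN 3 fun y => or (not (allL R (rowOK cu cw m x y)))
      (Nat.ble (pop m) (tb4 t x (st m bu cu) (st m bw cw) y))))

theorem cg : ∀ i < 3, chkg (I i) (bu i) (cu i) (bw i) (cw i) (Tg i) = true := by decide +kernel
theorem ci : ∀ i < 3, chki (I i) (Ed i) (bu i) (cu i) (bw i) (cw i) (Ti i) = true := by
  decide +kernel
theorem cb : ∀ i < 3, chkb (Ed i) (bu i) (cu i) (bw i) (cw i) (Tb i) = true := by decide +kernel
theorem cG : ∀ i < 3, chkG (I i) (rows i) (bu i) (cu i) (bw i) (cw i) (TG i) = true := by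
  decide +kernel

/-! ## From the graph to the masks -/

theorem allN_iff (n : ℕ) (f : ℕ → Bool) : allN n f = true ↔ ∀ k < n, f k = true := by
  induction n with
  | zero => simp [allN]
  | succ n ih =>
    have h : allN (n + 1) f = (f n && allN n f) := rfl
    rw [h, Bool.and_eq_true, ih]
    constructor
    · rintro ⟨h1, h2⟩ k hk
      rcases Nat.lt_succ_iff_lt_or_eq.1 hk with h3 | rfl
      · exact h2 k h3
      · exact h1
    · intro h1
      exact ⟨h1 n (Nat.lt_succ_self n), fun k hk => h1 k (by omega)⟩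

theorem allL_iff {α : Type} (l : List α) (f : α → Bool) : allL l f = true ↔ ∀ a ∈ l, f a = true := by
  induction l with
  | nil => simp [allL]
  | cons a l ih =>
    have h : allL (a :: l) f = (f a && allL l f) := rfl
    rw [h, Bool.and_eq_true, ih]
    simp

theorem anyL_iff (l : List ℕ) (f : ℕ → Bool) : anyL l f = true ↔ ∃ a ∈ l, f a = true := by
  induction l with
  | nil => simp [anyL]
  | cons a l ih =>
    have h : anyL (a :: l) f = (f a || anyL l f) := rfl
    rw [h, Bool.or_eq_true, ih]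
    simp

theorem hit_iff (m c : ℕ) : hit m c = true ↔ ∃ k, m.testBit k = true ∧ c.testBit k = true := by
  have h : hit m c = !(Nat.beq (m &&& c) 0) := rfl
  rw [h, Bool.not_eq_true', ← Bool.not_eq_true, Nat.beq_eq]
  constructor
  · intro h1
    by_contra h2
    push Not at h2
    apply h1
    apply Nat.eq_of_testBit_eq
    intro k
    rw [Nat.testBit_and, Nat.zero_testBit]
    by_cases h3 : m.testBit k = true
    · have := h2 k h3
      simp [this]
    · simp [h3]
  · rintro ⟨k, h1, h2⟩ h3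
    have h4 : (m &&& c).testBit k = true := by rw [Nat.testBit_and, h1, h2]; rfl
    rw [h3, Nat.zero_testBit] at h4
    exact absurd h4 (by decide)

abbrev V := Fin 3 × Fin 12

/-- the part of `S` in piece `i` as a mask -/
def mask (S : Finset V) (i : Fin 3) : ℕ := Nat.ofBits fun j : Fin 12 => decide ((i, j) ∈ S)

theorem mask_lt (S : Finset V) (i : Fin 3) : mask S i < 4096 :=
  (Nat.ofBits_lt_two_pow _ : mask S i < 2 ^ 12)

theorem testBit_mask (S : Finset V) (i : Fin 3) (k : ℕ) :
    (mask S i).testBit k = true ↔ ∃ j : Fin 12, (j : ℕ) = k ∧ (i, j) ∈ S := by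
  by_cases hk : k < 12
  · rw [mask, Nat.testBit_ofBits_lt _ _ hk, decide_eq_true_iff]
    constructor
    · intro h
      exact ⟨⟨k, hk⟩, rfl, h⟩
    · rintro ⟨j, rfl, h⟩
      exact h
  · rw [mask, Nat.testBit_ofBits_ge _ _ (by omega)]
    constructor
    · intro h
      exact absurd h (by decide)
    · rintro ⟨j, rfl, h⟩
      exact absurd j.2 hk

theorem testBit_mask' (S : Finset V) (i : Fin 3) (j : Fin 12) :
    (mask S i).testBit j = true ↔ (i, j) ∈ S := by
  rw [testBit_mask]
  constructor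
  · rintro ⟨j', h, h1⟩
    rw [Fin.ext h] at h1
    exact h1
  · intro h
    exact ⟨j, rfl, h⟩

theorem hit_pow (S : Finset V) (i : Fin 3) (j : Fin 12) :
    hit (mask S i) (2 ^ (j : ℕ)) = true ↔ (i, j) ∈ S := by
  rw [hit_iff]
  constructor
  · rintro ⟨k, h1, h2⟩
    rw [Nat.testBit_two_pow, decide_eq_true_iff] at h2
    rw [← h2] at h1
    exact (testBit_mask' S i j).1 h1
  · intro h
    exact ⟨j, (testBit_mask' S i j).2 h, by rw [Nat.testBit_two_pow]; simp⟩

theorem hit_C (S : Finset V) (i : Fin 3) (c : ℕ) :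
    hit (mask S i) c = true ↔ ∃ k : Fin 12, (i, k) ∈ S ∧ c.testBit k = true := by
  rw [hit_iff]
  constructor
  · rintro ⟨k, h1, h2⟩
    obtain ⟨j, rfl, hj⟩ := (testBit_mask S i k).1 h1
    exact ⟨j, hj, h2⟩
  · rintro ⟨k, h1, h2⟩
    exact ⟨k, (testBit_mask' S i k).2 h1, h2⟩

theorem pop_eq : ∀ m < 4096, pop m = (Finset.univ.filter fun j : Fin 12 => m.testBit j = true).card := by
  decide +kernel

theorem pop_mask (S : Finset V) (i : Fin 3) :
    pop (mask S i) = (Finset.univ.filter fun j : Fin 12 => (i, j) ∈ S).card := by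
  rw [pop_eq _ (mask_lt S i)]
  congr 1
  ext j
  rw [Finset.mem_filter, Finset.mem_filter, testBit_mask' S i j]

theorem card_eq (S : Finset V) : S.card = pop (mask S 0) + pop (mask S 1) + pop (mask S 2) := by
  rw [pop_mask, pop_mask, pop_mask]
  have h1 : S.card = ∑ p : V, if p ∈ S then 1 else 0 := by simp
  rw [h1, Fintype.sum_prod_type, Fin.sum_univ_three]
  simp only [Finset.card_filter]

/-- The closed neighbourhoods. -/
theorem near_iff : ∀ p q : V, Near Gr p q ↔
    (p.1 = q.1 ∧ (C p.1 p.2).testBit q.2 = true) ∨ (p.2 = W p.1 ∧ q = (p.1 + 1, U (p.1 + 1))) ∨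
      (q.2 = W q.1 ∧ p = (q.1 + 1, U (q.1 + 1))) := by
  unfold Near Gr
  decide +kernel

theorem C_symm : ∀ i : Fin 3, ∀ j k : Fin 12, (C i j).testBit k = (C i k).testBit j := by
  decide +kernel

theorem U_ne_W : ∀ i, U i ≠ W i := by decide

theorem near_internal {i : Fin 3} {j : Fin 12} (hu : j ≠ U i) (hw : j ≠ W i) {a : Fin 3}
    {b : Fin 12} (h : Near Gr (a, b) (i, j)) : a = i ∧ (C i j).testBit b = true := by
  rw [near_iff] at h
  dsimp only at h
  rcases h with ⟨h1, h2⟩ | ⟨h1, h2⟩ | ⟨h1, h2⟩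
  · subst h1
    exact ⟨rfl, (C_symm _ _ _).trans h2⟩
  · obtain ⟨h3, h4⟩ := Prod.mk.inj h2
    exact absurd (by rw [h3]; exact h4) hu
  · exact absurd h1 hw

/-- the vertices near the end point joined to the previous piece -/
theorem near_U {i : Fin 3} {a : Fin 3} {b : Fin 12} (h : Near Gr (a, b) (i + 1, U (i + 1))) :
    (a = i + 1 ∧ (C (i + 1 : Fin 3) (U (i + 1))).testBit b = true) ∨ (a = i ∧ b = W i) := by
  rw [near_iff] at h
  dsimp only at h
  rcases h with ⟨h1, h2⟩ | ⟨h1, h2⟩ | ⟨h1, h2⟩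
  · subst h1
    exact Or.inl ⟨rfl, (C_symm _ _ _).trans h2⟩
  · obtain ⟨h3, h4⟩ := Prod.mk.inj h2
    have h5 : i = a := add_right_cancel h3
    subst h5
    exact Or.inr ⟨rfl, h1⟩
  · exact absurd h1 (U_ne_W _)

/-- the vertices near the end point joined to the next piece -/
theorem near_W {i : Fin 3} {a : Fin 3} {b : Fin 12} (h : Near Gr (a, b) (i, W i)) :
    (a = i ∧ (C i (W i)).testBit b = true) ∨ (a = i + 1 ∧ b = U (i + 1)) := by
  rw [near_iff] at h
  dsimp only at h
  rcases h with ⟨h1, h2⟩ | ⟨h1, h2⟩ | ⟨h1, h2⟩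
  · subst h1
    exact Or.inl ⟨rfl, (C_symm _ _ _).trans h2⟩
  · exfalso
    obtain ⟨h3, h4⟩ := Prod.mk.inj h2
    rw [← h3] at h4
    exact U_ne_W i h4.symm
  · exact Or.inr (Prod.mk.inj h2)

/-- state of the end point joined to the previous piece -/
def sU (S : Finset V) (i : Fin 3) : ℕ := st (mask S i) (bu i) (cu i)
/-- state of the end point joined to the next piece -/
def sW (S : Finset V) (i : Fin 3) : ℕ := st (mask S i) (bw i) (cw i)

theorem ends : ∀ i : Fin 3, bu i = 2 ^ (U i : ℕ) ∧ cu i = C i (U i) ∧ bw i = 2 ^ (W i : ℕ) ∧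
    cw i = C i (W i) := by decide

theorem st_lt (m b c : ℕ) : st m b c < 3 := by
  unfold st
  cases hit m b <;> cases hit m c <;> decide

theorem st_zero (m b c : ℕ) : st m b c = 0 ↔ hit m b = true := by
  unfold st
  cases hit m b <;> cases hit m c <;> decide

theorem st_one (m b c : ℕ) : st m b c = 1 ↔ hit m b = false ∧ hit m c = false := by
  unfold st
  cases hit m b <;> cases hit m c <;> decide

theorem sU_zero (S : Finset V) (i : Fin 3) : sU S i = 0 ↔ (i, U i) ∈ S := by
  rw [sU, st_zero, (ends i).1, hit_pow]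

theorem sW_zero (S : Finset V) (i : Fin 3) : sW S i = 0 ↔ (i, W i) ∈ S := by
  rw [sW, st_zero, (ends i).2.2.1, hit_pow]

theorem sU_one (S : Finset V) (i : Fin 3) : sU S i = 1 ↔
    (i, U i) ∉ S ∧ ∀ k : Fin 12, (i, k) ∈ S → (C i (U i)).testBit k = false := by
  rw [sU, st_one, (ends i).1, (ends i).2.1, ← Bool.not_eq_true, ← Bool.not_eq_true, hit_pow, hit_C]
  push Not
  simp only [ne_eq, Bool.not_eq_true]

theorem sW_one (S : Finset V) (i : Fin 3) : sW S i = 1 ↔
    (i, W i) ∉ S ∧ ∀ k : Fin 12, (i, k) ∈ S → (C i (W i)).testBit k = false := by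
  rw [sW, st_one, (ends i).2.2.1, (ends i).2.2.2, ← Bool.not_eq_true, ← Bool.not_eq_true, hit_pow,
    hit_C]
  push Not
  simp only [ne_eq, Bool.not_eq_true]

theorem I_mem : ∀ i : Fin 3, ∀ c ∈ I i, ∃ j : Fin 12, j ≠ U i ∧ j ≠ W i ∧ c = C i j := by
  decide +kernel

/-- the pieces of a dominating set -/
theorem dom_piece {S : Finset V} (h : Dominating Gr S) (i : Fin 3) :
    allL (I i) (fun c => hit (mask S i) c) = true := by
  rw [allL_iff]
  intro c hc
  obtain ⟨j, hu, hw, rfl⟩ := I_mem i c hc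
  rw [hit_C]
  obtain ⟨⟨a, b⟩, hp, hn⟩ := h (i, j)
  obtain ⟨rfl, h2⟩ := near_internal hu hw hn
  exact ⟨b, hp, h2⟩

/-- possible states at a joining edge of a dominating set -/
def join (x a : ℕ) : Bool :=
  and (or (not (Nat.beq a 1)) (Nat.beq x 0)) (or (not (Nat.beq x 1)) (Nat.beq a 0))

theorem join_of {x a : ℕ} (h1 : a = 1 → x = 0) (h2 : x = 1 → a = 0) : join x a = true := by
  unfold join
  rw [Bool.and_eq_true, Bool.or_eq_true, Bool.or_eq_true, Bool.not_eq_true', Bool.not_eq_true',
    ← Bool.not_eq_true, ← Bool.not_eq_true, Nat.beq_eq, Nat.beq_eq, Nat.beq_eq, Nat.beq_eq]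
  tauto

/-- the joining edges and a dominating set -/
theorem dom_join {S : Finset V} (h : Dominating Gr S) (i : Fin 3) :
    join (sW S i) (sU S (i + 1)) = true := by
  apply join_of
  · intro h1
    rw [sU_one] at h1
    rw [sW_zero]
    obtain ⟨⟨a, b⟩, hp, hn⟩ := h (i + 1, U (i + 1))
    rcases near_U hn with ⟨rfl, h3⟩ | ⟨rfl, rfl⟩
    · exfalso
      rw [h1.2 b hp] at h3
      exact absurd h3 (by decide)
    · exact hp
  · intro h1
    rw [sW_one] at h1
    rw [sU_zero]
    obtain ⟨⟨a, b⟩, hp, hn⟩ := h (i, W i)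
    rcases near_W hn with ⟨rfl, h3⟩ | ⟨rfl, rfl⟩
    · exfalso
      rw [h1.2 b hp] at h3
      exact absurd h3 (by decide)
    · exact hp

/-- not both ends of a joining edge are in the set -/
def apart (x a : ℕ) : Bool := not (and (Nat.beq x 0) (Nat.beq a 0))

/-- check of a statement about all states at the joining edges -/
def chkT (J : ℕ → ℕ → Bool) (F : ℕ → ℕ → ℕ → ℕ → ℕ → ℕ → Bool) : Bool :=
  allN 3 fun a0 => allN 3 fun b0 => allN 3 fun a1 => allN 3 fun b1 => allN 3 fun a2 =>
    allN 3 fun b2 => or (not (and (J b0 a1) (and (J b1 a2) (J b2 a0)))) (F a0 b0 a1 b1 a2 b2)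

theorem chkT_use {J : ℕ → ℕ → Bool} {F : ℕ → ℕ → ℕ → ℕ → ℕ → ℕ → Bool} (h : chkT J F = true)
    {a0 b0 a1 b1 a2 b2 : ℕ} (ha0 : a0 < 3) (hb0 : b0 < 3) (ha1 : a1 < 3) (hb1 : b1 < 3)
    (ha2 : a2 < 3) (hb2 : b2 < 3) (h0 : J b0 a1 = true) (h1 : J b1 a2 = true)
    (h2 : J b2 a0 = true) : F a0 b0 a1 b1 a2 b2 = true := by
  unfold chkT at h
  have h3 := (allN_iff _ _).1 ((allN_iff _ _).1 ((allN_iff _ _).1 ((allN_iff _ _).1
    ((allN_iff _ _).1 ((allN_iff _ _).1 h a0 ha0) b0 hb0) a1 ha1) b1 hb1) a2 ha2) b2 hb2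
  rw [h0, h1, h2] at h3
  exact h3

theorem tableg : chkT join (fun a0 b0 a1 b1 a2 b2 => Nat.ble 10
    (Nat.add (Nat.add (tb (Tg 0) a0 b0) (tb (Tg 1) a1 b1)) (tb (Tg 2) a2 b2))) = true := by
  decide +kernel

theorem tablei : chkT (fun x a => and (join x a) (apart x a)) (fun a0 b0 a1 b1 a2 b2 => Nat.ble 11
    (Nat.add (Nat.add (tb (Ti 0) a0 b0) (tb (Ti 1) a1 b1)) (tb (Ti 2) a2 b2))) = true := by
  decide +kernel

theorem tableb : chkT apart (fun a0 b0 a1 b1 a2 b2 => Nat.ble
    (Nat.add (Nat.add (tb (Tb 0) a0 b0) (tb (Tb 1) a1 b1)) (tb (Tb 2) a2 b2)) 14) = true := by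
  decide +kernel

theorem tableG : chkT join (fun a0 b0 a1 b1 a2 b2 => Nat.ble
    (Nat.add (Nat.add (tb4 (TG 0) b2 a0 b0 a1) (tb4 (TG 1) b0 a1 b1 a2)) (tb4 (TG 2) b1 a2 b2 a0))
    15) = true := by
  decide +kernel

/-- `γ ≥ 10` -/
theorem gamma_ge {S : Finset V} (h : Dominating Gr S) : 10 ≤ S.card := by
  have key : ∀ i : Fin 3, tb (Tg i) (sU S i) (sW S i) ≤ pop (mask S i) := by
    intro i
    have h1 := cg i i.2
    unfold chkg at h1
    rw [allN_iff] at h1
    have h2 := h1 _ (mask_lt S i)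
    rw [dom_piece h i] at h2
    have h3 : Nat.ble (tb (Tg i) (sU S i) (sW S i)) (pop (mask S i)) = true := h2
    exact Nat.le_of_ble_eq_true h3
  rw [card_eq]
  have h4 := Nat.le_of_ble_eq_true (chkT_use tableg (st_lt _ _ _) (st_lt _ _ _) (st_lt _ _ _)
    (st_lt _ _ _) (st_lt _ _ _) (st_lt _ _ _) (dom_join h 0) (dom_join h 1) (dom_join h 2))
  exact h4.trans (Nat.add_le_add (Nat.add_le_add (key 0) (key 1)) (key 2))

/-- An independent set contains no edge of a piece. -/
theorem Ed_mem : ∀ i : Fin 3, ∀ e ∈ Ed i, ∃ j k : Fin 12, Near Gr (i, j) (i, k) ∧ j ≠ k ∧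
    e.testBit j = true ∧ e.testBit k = true := by
  unfold Near
  decide +kernel

theorem indep_piece {S : Finset V} (h : Independent Gr S) (i : Fin 3) :
    indep (Ed i) (mask S i) = true := by
  unfold indep
  rw [allL_iff]
  intro e he
  obtain ⟨j, k, hn, hjk, hj, hk⟩ := Ed_mem i e he
  rw [Bool.not_eq_true', ← Bool.not_eq_true, Nat.beq_eq]
  intro h1
  have h2 : ∀ t : Fin 12, e.testBit t = true → (i, t) ∈ S := by
    intro t ht
    rw [← testBit_mask' S i t]
    have h3 : (mask S i &&& e).testBit t = true := by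
      have h4 : mask S i &&& e = e := h1
      rw [h4]
      exact ht
    rw [Nat.testBit_and, Bool.and_eq_true] at h3
    exact h3.1
  rcases hn with h3 | h3
  · exact hjk (Prod.mk.inj h3).2.symm
  · exact h _ (h2 j hj) _ (h2 k hk) h3

theorem adj_join : ∀ i : Fin 3, Gr.Adj (i, W i) (i + 1, U (i + 1)) := by decide +kernel

theorem indep_join {S : Finset V} (h : Independent Gr S) (i : Fin 3) :
    apart (sW S i) (sU S (i + 1)) = true := by
  unfold apart
  rw [Bool.not_eq_true', ← Bool.not_eq_true, Bool.and_eq_true, Nat.beq_eq, Nat.beq_eq, sW_zero,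
    sU_zero]
  rintro ⟨h1, h2⟩
  exact h _ h1 _ h2 (adj_join i)

/-- `i ≥ 11` -/
theorem idom_ge {S : Finset V} (h : Dominating Gr S) (h' : Independent Gr S) : 11 ≤ S.card := by
  have key : ∀ i : Fin 3, tb (Ti i) (sU S i) (sW S i) ≤ pop (mask S i) := by
    intro i
    have h1 := ci i i.2
    unfold chki at h1
    rw [allN_iff] at h1
    have h2 := h1 _ (mask_lt S i)
    rw [dom_piece h i, indep_piece h' i] at h2
    have h3 : Nat.ble (tb (Ti i) (sU S i) (sW S i)) (pop (mask S i)) = true := h2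
    exact Nat.le_of_ble_eq_true h3
  have hj : ∀ i : Fin 3, (fun x a => and (join x a) (apart x a)) (sW S i) (sU S (i + 1)) = true :=
    fun i => by
      dsimp only
      rw [dom_join h i, indep_join h' i]
      rfl
  rw [card_eq]
  have h4 := Nat.le_of_ble_eq_true (chkT_use tablei (st_lt _ _ _) (st_lt _ _ _) (st_lt _ _ _)
    (st_lt _ _ _) (st_lt _ _ _) (st_lt _ _ _) (hj 0) (hj 1) (hj 2))
  exact h4.trans (Nat.add_le_add (Nat.add_le_add (key 0) (key 1)) (key 2))

/-- `β₀ ≤ 14` -/
theorem beta_le {S : Finset V} (h' : Independent Gr S) : S.card ≤ 14 := by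
  have key : ∀ i : Fin 3, pop (mask S i) ≤ tb (Tb i) (sU S i) (sW S i) := by
    intro i
    have h1 := cb i i.2
    unfold chkb at h1
    rw [allN_iff] at h1
    have h2 := h1 _ (mask_lt S i)
    rw [indep_piece h' i] at h2
    have h3 : Nat.ble (pop (mask S i)) (tb (Tb i) (sU S i) (sW S i)) = true := h2
    exact Nat.le_of_ble_eq_true h3
  rw [card_eq]
  have h4 := Nat.le_of_ble_eq_true (chkT_use tableb (st_lt _ _ _) (st_lt _ _ _) (st_lt _ _ _)
    (st_lt _ _ _) (st_lt _ _ _) (st_lt _ _ _) (indep_join h' 0) (indep_join h' 1)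
    (indep_join h' 2))
  exact (Nat.add_le_add (Nat.add_le_add (key 0) (key 1)) (key 2)).trans h4

/-- meaning of the rows -/
theorem rows_mem : ∀ i : Fin 3, ∀ r ∈ rows i, ∃ j : Fin 12, r.b = 2 ^ (j : ℕ) ∧
    (∀ q : Fin 12, (C i j).testBit q = true →
      (q = U i ∧ r.hu = true) ∨ (q = W i ∧ r.hw = true) ∨ (q ≠ U i ∧ q ≠ W i ∧ C i q ∈ r.l)) ∧
    (j = U i → r.ku = true) ∧ (j = W i → r.kw = true) := by
  decide +kernel

theorem rowOK_mono {cu cw m x y : ℕ} {r : Row} (h : rowOK cu cw m x y r = true) :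
    rowOK cu cw m 1 1 r = true := by
  unfold rowOK at h ⊢
  simp only [Bool.or_eq_true, Bool.and_eq_true] at h ⊢
  have h1 : Nat.beq 1 1 = true := rfl
  have h2 : (!Nat.beq 1 0) = true := rfl
  rw [h1, h2]
  tauto

theorem near_symm {p q : V} (h : Near Gr p q) : Near Gr q p := by
  rcases h with h | h
  · exact Or.inl h.symm
  · exact Or.inr h.symm

/-- The pieces of an irredundant set. -/
theorem irr_piece {S : Finset V} (h : Irredundant Gr S) (i : Fin 3) :
    allL (rows (i + 1 : Fin 3)) (rowOK (cu (i + 1 : Fin 3)) (cw (i + 1 : Fin 3)) (mask S (i + 1))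
      (sW S i) (sU S (i + 1 + 1))) = true := by
  rw [allL_iff]
  intro r hr
  obtain ⟨j, hb, hq, hu, hw⟩ := rows_mem (i + 1) r hr
  unfold rowOK
  simp only [Bool.or_eq_true, Bool.and_eq_true, Bool.not_eq_true']
  by_cases hS : (i + 1, j) ∈ S
  swap
  · left
    rw [hb, ← Bool.not_eq_true, hit_pow]
    exact hS
  right
  have hi : i ≠ i + 1 := by
    intro h0
    have : ∀ i : Fin 3, i ≠ i + 1 := by decide
    exact this i h0
  have hi' : i + 1 + 1 ≠ i + 1 := by
    have : ∀ i : Fin 3, i + 1 + 1 ≠ i + 1 := by decide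
    exact this i
  obtain ⟨⟨c, q⟩, hn, hpr⟩ := h _ hS
  have hpr' : ∀ u ∈ S, Near Gr u (c, q) → u = (i + 1, j) := by
    intro u hu1 hu2
    by_contra hne
    exact hpr u hu1 hne hu2
  have hn0 := hn
  rw [near_iff] at hn
  dsimp only at hn
  rcases hn with ⟨h1, h2⟩ | ⟨h1, h2⟩ | ⟨h1, h2⟩
  · -- the private neighbour is in the piece
    subst h1
    have hland : Nat.land (mask S (i + 1)) (C (i + 1 : Fin 3) q) = r.b := by
      rw [hb]
      apply Nat.eq_of_testBit_eq
      intro t
      have h3 : (Nat.land (mask S (i + 1)) (C (i + 1 : Fin 3) q)).testBit t =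
        ((mask S (i + 1)).testBit t && (C (i + 1 : Fin 3) q).testBit t) := Nat.testBit_and _ _ _
      rw [h3, Bool.eq_iff_iff, Bool.and_eq_true, Nat.testBit_two_pow, decide_eq_true_iff]
      constructor
      · rintro ⟨h4, h5⟩
        obtain ⟨k, rfl, hk⟩ := (testBit_mask S (i + 1) t).1 h4
        have h6 := hpr' _ hk (by
          rw [near_iff]
          exact Or.inl ⟨rfl, (C_symm _ _ _).trans h5⟩)
        rw [(Prod.mk.inj h6).2]
      · rintro rfl
        exact ⟨(testBit_mask' S (i + 1) j).2 hS, (C_symm _ _ _).trans h2⟩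
    rcases hq q h2 with ⟨rfl, h4⟩ | ⟨rfl, h4⟩ | ⟨-, -, h4⟩
    · right; left
      refine ⟨h4, ?_, ?_⟩
      · rw [(ends (i + 1)).2.1, Nat.beq_eq]
        exact hland
      · rw [← Bool.not_eq_true, Nat.beq_eq, sW_zero]
        intro h5
        have h6 := hpr' _ h5 (by
          rw [near_iff]
          exact Or.inr (Or.inl ⟨rfl, rfl⟩))
        exact hi (Prod.mk.inj h6).1
    · right; right; left
      refine ⟨h4, ?_, ?_⟩
      · rw [(ends (i + 1)).2.2.2, Nat.beq_eq]
        exact hland
      · rw [← Bool.not_eq_true, Nat.beq_eq, sU_zero]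
        intro h5
        have h6 := hpr' _ h5 (by
          rw [near_iff]
          exact Or.inr (Or.inr ⟨rfl, rfl⟩))
        exact hi' (Prod.mk.inj h6).1
    · left
      rw [anyL_iff]
      exact ⟨_, h4, by rw [Nat.beq_eq]; exact hland⟩
  · -- the private neighbour is in the next piece
    right; right; right; right
    obtain ⟨rfl, rfl⟩ := Prod.mk.inj h2
    refine ⟨hw h1, ?_⟩
    rw [Nat.beq_eq, sU_one]
    constructor
    · intro h5
      exact hi' (Prod.mk.inj (hpr' _ h5 (Or.inl rfl))).1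
    · intro k hk
      by_contra h5
      rw [Bool.not_eq_false] at h5
      have h6 := hpr' _ hk (by
        rw [near_iff]
        exact Or.inl ⟨rfl, (C_symm _ _ _).trans h5⟩)
      exact hi' (Prod.mk.inj h6).1
  · -- the private neighbour is in the previous piece
    right; right; right; left
    obtain ⟨h3, h4⟩ := Prod.mk.inj h2
    have h5 : i = c := add_right_cancel h3
    subst h5
    subst h1
    refine ⟨hu h4, ?_⟩
    rw [Nat.beq_eq, sW_one]
    constructor
    · intro h5
      exact hi (Prod.mk.inj (hpr' _ h5 (Or.inl rfl))).1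
    · intro k hk
      by_contra h5
      rw [Bool.not_eq_false] at h5
      have h6 := hpr' _ hk (by
        rw [near_iff]
        exact Or.inl ⟨rfl, (C_symm _ _ _).trans h5⟩)
      exact hi (Prod.mk.inj h6).1

/-- `Γ ≤ 15` -/
theorem Gamma_le {S : Finset V} (h : Dominating Gr S) (h' : Irredundant Gr S) : S.card ≤ 15 := by
  have key : ∀ i : Fin 3, pop (mask S (i + 1)) ≤
      tb4 (TG (i + 1 : Fin 3)) (sW S i) (sU S (i + 1)) (sW S (i + 1)) (sU S (i + 1 + 1)) := by
    intro i
    have h1 := cG _ (i + 1 : Fin 3).2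
    unfold chkG at h1
    rw [allN_iff] at h1
    have h2 := h1 _ (mask_lt S (i + 1))
    have hr := irr_piece h' i
    have hr1 : allL (rows (i + 1 : Fin 3)) (rowOK (cu (i + 1 : Fin 3)) (cw (i + 1 : Fin 3))
        (mask S (i + 1)) 1 1) = true := by
      rw [allL_iff] at hr ⊢
      exact fun a ha => rowOK_mono (hr a ha)
    rw [dom_piece h (i + 1), hr1] at h2
    have h3 : (allN 3 fun x => allN 3 fun y => or (not (allL (rows (i + 1 : Fin 3))
      (rowOK (cu (i + 1 : Fin 3)) (cw (i + 1 : Fin 3)) (mask S (i + 1)) x y)))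
      (Nat.ble (pop (mask S (i + 1))) (tb4 (TG (i + 1 : Fin 3)) x (sU S (i + 1)) (sW S (i + 1)) y)))
      = true := h2
    have h4 := (allN_iff _ _).1 ((allN_iff _ _).1 h3 (sW S i) (st_lt _ _ _)) (sU S (i + 1 + 1))
      (st_lt _ _ _)
    rw [hr] at h4
    exact Nat.le_of_ble_eq_true h4
  rw [card_eq]
  have h4 := Nat.le_of_ble_eq_true (chkT_use tableG (st_lt _ _ _) (st_lt _ _ _) (st_lt _ _ _)
    (st_lt _ _ _) (st_lt _ _ _) (st_lt _ _ _) (dom_join h 0) (dom_join h 1) (dom_join h 2))
  exact (Nat.add_le_add (Nat.add_le_add (key 2) (key 0)) (key 1)).trans h4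

/-! ## Explicit sets -/

/-- a maximal irredundant set with 9 vertices -/
def Sir : Finset V := {(0, 0), (0, 1), (0, 6), (0, 7), (1, 6), (1, 7), (2, 0), (2, 1), (2, 4)}
/-- a dominating set with 10 vertices -/
def Sg : Finset V := {(0, 0), (0, 3), (0, 6), (0, 11), (1, 3), (1, 4), (1, 5), (2, 1), (2, 7), (2, 11)}
/-- an independent dominating set with 11 vertices -/
def Si : Finset V := {(0, 0), (0, 3), (0, 6), (0, 11), (1, 1), (1, 6), (1, 11), (2, 0), (2, 4), (2, 5), (2, 7)}
/-- an independent set with 14 vertices -/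
def Sb : Finset V := {(0, 0), (0, 3), (0, 4), (0, 8), (0, 9), (1, 1), (1, 3), (1, 5), (1, 8), (2, 0), (2, 4), (2, 5), (2, 10), (2, 11)}
/-- a minimal dominating set with 15 vertices -/
def SG : Finset V := {(0, 0), (0, 1), (0, 2), (0, 8), (0, 10), (0, 11), (1, 4), (1, 5), (1, 6), (2, 1), (2, 4), (2, 5), (2, 8), (2, 9), (2, 11)}
/-- an irredundant set with 16 vertices -/
def SIR : Finset V := {(0, 0), (0, 1), (0, 2), (0, 8), (0, 10), (0, 11), (1, 4), (1, 5), (1, 8), (1, 10), (2, 1), (2, 4), (2, 5), (2, 8), (2, 9), (2, 11)}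

instance (p q : V) : Decidable (Near Gr p q) := inferInstanceAs (Decidable (_ ∨ _))

/-- a vertex without private neighbour in `insert p Sir` -/
def cert (p : V) : V :=
  ![![(0, 0), (0, 1), (0, 2), (0, 1), (0, 4), (0, 1), (0, 6), (0, 7), (0, 6), (0, 6), (0, 6), (0, 7)],
    ![(0, 0), (0, 0), (0, 0), (1, 3), (1, 6), (1, 7), (1, 6), (1, 7), (1, 6), (1, 6), (1, 7), (1, 7)],
    ![(2, 0), (2, 1), (2, 2), (2, 0), (2, 4), (2, 0), (0, 1), (2, 0), (2, 4), (2, 1), (2, 4), (2, 4)]] p.1 p.2

theorem Sir_irr : Irredundant Gr Sir := by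
  unfold Irredundant
  decide +kernel

theorem Sir_cert : ∀ p : V, p ∉ Sir → cert p ∈ insert p Sir ∧
    ∀ w, Near Gr (cert p) w → ∃ u ∈ insert p Sir, u ≠ cert p ∧ Near Gr u w := by
  decide +kernel

theorem irr_anti {S T : Finset V} (h : S ⊆ T) (hT : Irredundant Gr T) : Irredundant Gr S := by
  intro v hv
  obtain ⟨w, h1, h2⟩ := hT v (h hv)
  exact ⟨w, h1, fun u hu => h2 u (h hu)⟩

theorem Sir_max : Maximal (Irredundant Gr) Sir := by
  refine ⟨Sir_irr, fun T hT hle p hp => ?_⟩
  by_contra hn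
  obtain ⟨h1, h2⟩ := Sir_cert p hn
  have h3 : Irredundant Gr (insert p Sir) :=
    irr_anti (Finset.insert_subset hp hle) hT
  obtain ⟨w, h4, h5⟩ := h3 _ h1
  obtain ⟨u, h6, h7, h8⟩ := h2 w h4
  exact h5 u h6 h7 h8

theorem Sg_dom : Dominating Gr Sg := by
  unfold Dominating
  decide +kernel

theorem Si_dom : Dominating Gr Si := by
  unfold Dominating
  decide +kernel

theorem Si_ind : Independent Gr Si := by
  unfold Independent
  decide +kernel

theorem Sb_ind : Independent Gr Sb := by
  unfold Independent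
  decide +kernel

theorem SG_dom : Dominating Gr SG := by
  unfold Dominating
  decide +kernel

theorem SG_irr : Irredundant Gr SG := by
  unfold Irredundant
  decide +kernel

theorem SIR_irr : Irredundant Gr SIR := by
  unfold Irredundant
  decide +kernel

theorem cards : Sir.card = 9 ∧ Sg.card = 10 ∧ Si.card = 11 ∧ Sb.card = 14 ∧ SG.card = 15 ∧
    SIR.card = 16 := by decide +kernel

/-- independent dominating sets are maximal independent sets -/
theorem Si_max : Maximal (Independent Gr) Si := by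
  refine ⟨Si_ind, fun T hT hle p hp => ?_⟩
  obtain ⟨q, hq, h1 | h1⟩ := Si_dom p
  · rw [h1]; exact hq
  · exact absurd h1 (hT q (hle hq) p hp)

theorem dom_of_max {S : Finset V} (h : Maximal (Independent Gr) S) : Dominating Gr S := by
  intro w
  by_contra hcon
  push Not at hcon
  have h1 : w ∉ S := fun hw => hcon w hw (Or.inl rfl)
  have h2 : Independent Gr (insert w S) := by
    intro a ha b hb hab
    rcases Finset.mem_insert.1 ha with ha | ha
    · rcases Finset.mem_insert.1 hb with hb | hb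
      · rw [ha, hb] at hab
        exact Gr.loopless.irrefl _ hab
      · rw [ha] at hab
        exact hcon b hb (Or.inr hab.symm)
    · rcases Finset.mem_insert.1 hb with hb | hb
      · rw [hb] at hab
        exact hcon a ha (Or.inr hab)
      · exact h.1 a ha b hb hab
  exact h1 (h.2 h2 (Finset.subset_insert w S) (Finset.mem_insert_self w S))

/-- minimal dominating sets are irredundant -/
theorem irr_of_min {S : Finset V} (h : Minimal (Dominating Gr) S) : Irredundant Gr S := by
  intro v hv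
  by_contra hcon
  push Not at hcon
  have h1 : Dominating Gr (S.erase v) := by
    intro w
    obtain ⟨u, hu, hw⟩ := h.1 w
    by_cases huv : u = v
    · subst huv
      obtain ⟨u', h2, h3, h4⟩ := hcon w hw
      exact ⟨u', Finset.mem_erase.2 ⟨h3, h2⟩, h4⟩
    · exact ⟨u, Finset.mem_erase.2 ⟨huv, hu⟩, hw⟩
  exact (Finset.mem_erase.1 (h.2 h1 (Finset.erase_subset v S) hv)).1 rfl

theorem SG_min : Minimal (Dominating Gr) SG := by
  refine ⟨SG_dom, fun T hT hle v hv => ?_⟩
  obtain ⟨w, h1, h2⟩ := SG_irr v hv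
  obtain ⟨u, hu, huw⟩ := hT w
  by_cases huv : u = v
  · rw [← huv]; exact hu
  · exact absurd huw (h2 u (hle hu) huv)

theorem bdd (P : Finset V → Prop) : BddAbove {k | ∃ S : Finset V, P S ∧ S.card = k} := by
  refine ⟨Fintype.card V, ?_⟩
  rintro k ⟨S, -, rfl⟩
  exact Finset.card_le_univ S

/-! ## Connectedness and degrees -/

/-- the previous vertex on a shortest path to `(0, 0)` -/
def par (p : V) : V :=
  ![![(0, 0), (0, 0), (0, 0), (0, 1), (0, 2), (0, 3), (0, 4), (0, 4), (0, 5), (0, 5), (0, 6), (0, 7)],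
    ![(0, 0), (1, 0), (1, 0), (1, 6), (1, 1), (1, 2), (1, 8), (1, 10), (1, 4), (1, 4), (1, 5), (1, 5)],
    ![(2, 1), (2, 5), (2, 4), (2, 5), (2, 8), (2, 9), (0, 3), (2, 10), (2, 10), (2, 6), (2, 6), (2, 9)]] p.1 p.2

/-- the distance from `(0, 0)` -/
def lev (p : V) : ℕ :=
  ![![0, 1, 1, 2, 2, 3, 3, 3, 4, 4, 4, 4],
    ![1, 2, 2, 6, 3, 3, 5, 5, 4, 4, 4, 4],
    ![7, 6, 7, 6, 6, 5, 3, 5, 5, 4, 4, 5]] p.1 p.2

theorem par_spec : ∀ p : V, p = (0, 0) ∨ (Gr.Adj p (par p) ∧ lev (par p) < lev p) := by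
  decide +kernel

theorem connected : Gr.Connected := by
  have h : ∀ n : ℕ, ∀ p : V, lev p < n → Gr.Reachable p (0, 0) := by
    intro n
    induction n with
    | zero => intro p hp; exact absurd hp (Nat.not_lt_zero _)
    | succ n ih =>
      intro p hp
      rcases par_spec p with rfl | ⟨h1, h2⟩
      · exact SimpleGraph.Reachable.refl _
      · exact h1.reachable.trans (ih _ (by omega))
  rw [SimpleGraph.connected_iff]
  exact ⟨fun p q => (h _ p (Nat.lt_succ_self _)).trans (h _ q (Nat.lt_succ_self _)).symm,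
    ⟨(0, 0)⟩⟩

theorem degrees : ∀ p : V, (Finset.univ.filter fun q => Gr.Adj p q).card = 3 := by
  decide +kernel

/-- **Main theorem.** There is a connected cubic graph (with 36 vertices) with
`ir < γ < i < β₀ < Γ < IR`. -/
theorem result : ∃ G : SimpleGraph (Fin 3 × Fin 12), G.Connected ∧
    (∀ v, (G.neighborSet v).ncard = 3) ∧
    ir G < gamma G ∧ gamma G < idom G ∧ idom G < beta0 G ∧ beta0 G < Gamma G ∧ Gamma G < IR G := by
  obtain ⟨c1, c2, c3, c4, c5, c6⟩ := cards
  refine ⟨Gr, connected, fun v => ?_, ?_⟩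
  · have h1 : Gr.neighborSet v = ((Finset.univ.filter fun q => Gr.Adj v q : Finset V) : Set V) := by
      ext q
      simp
    rw [h1, Set.ncard_coe_finset]
    exact degrees v
  have e1 : ir Gr ≤ 9 := Nat.sInf_le ⟨Sir, Sir_max, c1⟩
  have e2 : 10 ≤ gamma Gr := by
    refine le_csInf (s := {k | ∃ S : Finset V, Dominating Gr S ∧ S.card = k}) ⟨_, Sg, Sg_dom, c2⟩ ?_
    rintro k ⟨S, hS, rfl⟩
    exact gamma_ge hS
  have e3 : gamma Gr ≤ 10 := Nat.sInf_le ⟨Sg, Sg_dom, c2⟩
  have e4 : 11 ≤ idom Gr := by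
    refine le_csInf (s := {k | ∃ S : Finset V, Maximal (Independent Gr) S ∧ S.card = k})
      ⟨_, Si, Si_max, c3⟩ ?_
    rintro k ⟨S, hS, rfl⟩
    exact idom_ge (dom_of_max hS) hS.1
  have e5 : idom Gr ≤ 11 := Nat.sInf_le ⟨Si, Si_max, c3⟩
  have e6 : 14 ≤ beta0 Gr := le_csSup (bdd _) ⟨Sb, Sb_ind, c4⟩
  have e7 : beta0 Gr ≤ 14 := by
    refine csSup_le (s := {k | ∃ S : Finset V, Independent Gr S ∧ S.card = k}) ⟨_, Sb, Sb_ind, c4⟩ ?_
    rintro k ⟨S, hS, rfl⟩
    exact beta_le hS
  have e8 : 15 ≤ Gamma Gr := le_csSup (bdd _) ⟨SG, SG_min, c5⟩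
  have e9 : Gamma Gr ≤ 15 := by
    refine csSup_le (s := {k | ∃ S : Finset V, Minimal (Dominating Gr) S ∧ S.card = k})
      ⟨_, SG, SG_min, c5⟩ ?_
    rintro k ⟨S, hS, rfl⟩
    exact Gamma_le hS.1 (irr_of_min hS)
  have e10 : 16 ≤ IR Gr := le_csSup (bdd _) ⟨SIR, SIR_irr, c6⟩
  omega

end Pool.Agent.Results.MP_93f3b8_co.StrictChain
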